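import Pool.Agent.W378.SM.T6of
import Pool.Agent.W907.SG.All

/-!
# SM, task T6
-/

set_option autoImplicit false

namespace Pool.Agent.W378.SM

open Pool.Agent.W907.SG Pool.Agent.W907.SM

theorem t6 : M_T6 := t6_of large nilp mlp charT

end Pool.Agent.W378.SM
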