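import Pool.Agent.W907.SM.Stmts
import Pool.Agent.W372.SG.FIN

/-!
# SM, task T6: from small mod p Betti numbers for one odd prime to the vanishing of l2 homology
-/

set_option autoImplicit false

namespace Pool.Agent.W378.SM

open Pool.Agent.W907.SG Pool.Agent.W907.SM Pool.Agent.W372.SG.FIN

theorem t6_of (hL : S_LARGE) (hN : S_NILP) (hM : S_MLP) (hC : S_CHAR) : M_T6 := by
  classical
  intro p _ V _ _ G i hp h
  refine hL V G i fun N E hE => ?_
  obtain ⟨X, _, _, P, hP⟩ := h N
  obtain ⟨Y, _, _, Q, ev, hev1, hev2, hev3, hevE⟩ := hN p V G E hp hE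
  obtain ⟨act, ha1, ha2, ha3⟩ := exists_act G X P.a P.inv P.comm
  refine ⟨X × Y, inferInstance, inferInstance, fun v z => (P.a v z.1, Q.a v z.2),
    fun z w => (act z.1 w, ev z.2 w), ?_, ?_, ?_, ?_, ?_, ?_, ?_⟩
  · intro v z
    show (P.a v (P.a v z.1), Q.a v (Q.a v z.2)) = z
    rw [P.inv, Q.inv]
  · intro u v huv z
    show (P.a u (P.a v z.1), Q.a u (Q.a v z.2)) = (P.a v (P.a u z.1), Q.a v (Q.a u z.2))
    rw [P.comm u v huv, Q.comm u v huv]
  · intro z
    show (act z.1 1, ev z.2 1) = z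
    rw [ha1, hev1]
  · intro z g h
    show (act z.1 (g * h), ev z.2 (g * h)) = (act (act z.1 g) h, ev (ev z.2 g) h)
    rw [ha2, hev2]
  · intro z v
    show (act z.1 _, ev z.2 _) = (P.a v z.1, Q.a v z.2)
    rw [ha3, hev3]
  · intro g hg z h
    exact hevE g hg z.2 (congrArg Prod.snd h)
  · have h1 := (hC V (X × Y) G (fun v z => (P.a v z.1, Q.a v z.2)) (fun v z => P.sgn v z.1)
      (fun v z => by
        show (P.a v (P.a v z.1), Q.a v (Q.a v z.2)) = z
        rw [P.inv, Q.inv])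
      (fun u v huv z => by
        show (P.a u (P.a v z.1), Q.a u (Q.a v z.2)) = (P.a v (P.a u z.1), Q.a v (Q.a u z.2))
        rw [P.comm u v huv, Q.comm u v huv])
      (fun v z => P.sgn_self v z.1) (fun u v huv z => P.sgn_other u v huv z.1) i).1 p hp
    have h2 := hM p V X Y G P.a P.sgn Q.a hp P.inv P.comm P.sgn_self P.sgn_other Q.inv Q.comm
      Q.ptype i
    rw [Fintype.card_prod]
    calc N * beta G (pull ℝ fun v (z : X × Y) => (P.a v z.1, Q.a v z.2)) Set.univ ∅ i
        ≤ N * (Fintype.card Y * beta G (pull (ZMod p) P.a) Set.univ ∅ i) :=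
          Nat.mul_le_mul_left _ (h1.trans h2)
      _ = (N * beta G (pull (ZMod p) P.a) Set.univ ∅ i) * Fintype.card Y := by ring
      _ ≤ Fintype.card X * Fintype.card Y := Nat.mul_le_mul_right _ hP

end Pool.Agent.W378.SM
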